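import Mathlib

namespace Pool.Agent.Results.MP_2e2529_nt.AlmostAllDrop

open Finset

/-- The map of the problem: `x / 2` for even `x`, `⌊4 x / 3⌋` for odd `x`. -/
def i (x : ℕ) : ℕ := if Even x then x / 2 else (4 * x) / 3

/-- The map `3t ↦ 4t`, `3t+1 ↦ t`, `3t+2 ↦ 2t+1`. -/
def g (u : ℕ) : ℕ := if u % 3 = 0 then 4 * (u / 3) else if u % 3 = 1 then u / 3 else 2 * (u / 3) + 1

def mul (u : ℕ) : ℕ := if u % 3 = 0 then 4 else if u % 3 = 1 then 1 else 2

def M : ℕ → ℕ → ℕ
  | 0, _ => 1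
  | k + 1, u => mul u * M k (g u)

lemma i_even (t : ℕ) : i (2 * t) = t := by
  unfold i; rw [if_pos (by simp)]; omega

lemma i_odd (t : ℕ) : i (2 * t + 1) = (4 * (2 * t + 1)) / 3 := by
  unfold i; rw [if_neg (by simp)]

/-- on odd integers `2u+1` some iterate (1, 2 or 3 steps) of `i` is `2 g(u) + 1`. -/
lemma conj (u : ℕ) : ∃ j, 1 ≤ j ∧ j ≤ 3 ∧ i^[j] (2 * u + 1) = 2 * g u + 1 := by
  have h3 : u % 3 = 0 ∨ u % 3 = 1 ∨ u % 3 = 2 := by omega
  rcases h3 with h | h | h
  · refine ⟨1, by norm_num, by norm_num, ?_⟩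
    simp only [Function.iterate_one, i_odd, g, h, if_true]
    omega
  · refine ⟨3, by norm_num, by norm_num, ?_⟩
    have e1 : i (2 * u + 1) = 2 * (2 * (2 * (u / 3) + 1)) := by rw [i_odd]; omega
    have hg : g u = u / 3 := by simp [g, h]
    show i (i (i (2 * u + 1))) = _
    rw [e1, i_even, i_even, hg]
  · refine ⟨2, by norm_num, by norm_num, ?_⟩
    have e1 : i (2 * u + 1) = 2 * (2 * (2 * (u / 3) + 1) + 1) := by rw [i_odd]; omega
    have hg : g u = 2 * (u / 3) + 1 := by simp [g, h]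
    show i (i (2 * u + 1)) = _
    rw [e1, i_even, hg]

lemma conj_iter (k u : ℕ) : ∃ j, i^[j] (2 * u + 1) = 2 * g^[k] u + 1 := by
  induction k generalizing u with
  | zero => exact ⟨0, rfl⟩
  | succ k ih =>
    obtain ⟨j1, -, -, h1⟩ := conj u
    obtain ⟨j2, h2⟩ := ih (g u)
    refine ⟨j2 + j1, ?_⟩
    rw [Function.iterate_add_apply, h1, h2, Function.iterate_succ_apply]

lemma g_add (k w r : ℕ) : g (3 ^ (k + 1) * w + r) = 3 ^ k * (mul r * w) + g r := by
  have e : 3 ^ (k + 1) * w + r = 3 * (3 ^ k * w) + r := by ring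
  rw [e]
  set A := 3 ^ k * w with hA
  have h0 : (3 * A + r) % 3 = r % 3 := by omega
  have h1 : (3 * A + r) / 3 = A + r / 3 := by omega
  have e2 : 3 ^ k * (mul r * w) = mul r * A := by rw [hA]; ring
  rw [e2]
  unfold g mul
  rw [h0, h1]
  have h3 : r % 3 = 0 ∨ r % 3 = 1 ∨ r % 3 = 2 := by omega
  rcases h3 with h | h | h <;> simp [h] <;> ring

lemma mul_add' (k w r : ℕ) : mul (3 ^ (k + 1) * w + r) = mul r := by
  have e : 3 ^ (k + 1) * w + r = 3 * (3 ^ k * w) + r := by ring
  rw [e]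
  have h0 : (3 * (3 ^ k * w) + r) % 3 = r % 3 := by omega
  unfold mul
  rw [h0]

lemma M_add (k w r : ℕ) : M k (3 ^ k * w + r) = M k r := by
  induction k generalizing w r with
  | zero => simp [M]
  | succ k ih => simp only [M]; rw [mul_add', g_add, ih]

lemma iter_add (k w r : ℕ) : g^[k] (3 ^ k * w + r) = M k r * w + g^[k] r := by
  induction k generalizing w r with
  | zero => simp [M]
  | succ k ih =>
    rw [Function.iterate_succ_apply, g_add, ih, Function.iterate_succ_apply]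
    simp only [M]; ring

lemma M_mod (k x : ℕ) : M k (x % 3 ^ k) = M k x := by
  conv_rhs => rw [← Nat.div_add_mod x (3 ^ k)]
  rw [M_add]

lemma sum_affine (n a b : ℕ) (hn : 0 < n) (h : Nat.Coprime n a) (f : ℕ → ℕ)
    (hf : ∀ x, f (x % n) = f x) : ∑ t ∈ range n, f (a * t + b) = ∑ t ∈ range n, f t := by
  have hinj : Set.InjOn (fun t => (a * t + b) % n) (range n : Set ℕ) := by
    intro x hx y hy hxy
    have h1 : a * x + b ≡ a * y + b [MOD n] := hxy
    have h2 : a * x ≡ a * y [MOD n] := Nat.ModEq.add_right_cancel' b h1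
    have h3 : x ≡ y [MOD n] := Nat.ModEq.cancel_left_of_coprime h h2
    exact Nat.ModEq.eq_of_lt_of_lt h3 (by simpa using hx) (by simpa using hy)
  have himg : (range n).image (fun t => (a * t + b) % n) = range n := by
    apply Finset.eq_of_subset_of_card_le
    · intro y hy
      rw [mem_image] at hy
      obtain ⟨t, -, rfl⟩ := hy
      exact mem_range.2 (Nat.mod_lt _ hn)
    · rw [card_image_of_injOn hinj]
  calc ∑ t ∈ range n, f (a * t + b) = ∑ t ∈ range n, f ((a * t + b) % n) := by simp only [hf]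
    _ = ∑ y ∈ (range n).image (fun t => (a * t + b) % n), f y := (sum_image hinj).symm
    _ = _ := by rw [himg]

lemma sum_range_three (n : ℕ) (f : ℕ → ℕ) :
    ∑ r ∈ range (3 * n), f r = ∑ t ∈ range n, (f (3 * t) + f (3 * t + 1) + f (3 * t + 2)) := by
  induction n with
  | zero => simp
  | succ n ih =>
    rw [show 3 * (n + 1) = 3 * n + 1 + 1 + 1 by ring, sum_range_succ, sum_range_succ,
      sum_range_succ, ih, sum_range_succ]
    ring

lemma sum_M (k : ℕ) : ∑ r ∈ range (3 ^ k), M k r = 7 ^ k := by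
  induction k with
  | zero => simp [M]
  | succ k ih =>
    rw [pow_succ, mul_comm (3 ^ k) 3, sum_range_three]
    have e : ∀ t, M (k + 1) (3 * t) + M (k + 1) (3 * t + 1) + M (k + 1) (3 * t + 2) =
        4 * M k (4 * t + 0) + M k (1 * t + 0) + 2 * M k (2 * t + 1) := by
      intro t
      have a0 : mul (3 * t) = 4 := by unfold mul; rw [if_pos (by omega)]
      have a1 : mul (3 * t + 1) = 1 := by
        unfold mul; rw [if_neg (by omega), if_pos (by omega)]
      have a2 : mul (3 * t + 2) = 2 := by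
        unfold mul; rw [if_neg (by omega), if_neg (by omega)]
      have b0 : g (3 * t) = 4 * t + 0 := by unfold g; rw [if_pos (by omega)]; omega
      have b1 : g (3 * t + 1) = 1 * t + 0 := by
        unfold g; rw [if_neg (by omega), if_pos (by omega)]; omega
      have b2 : g (3 * t + 2) = 2 * t + 1 := by
        unfold g; rw [if_neg (by omega), if_neg (by omega)]; omega
      simp only [M]
      rw [a0, a1, a2, b0, b1, b2]; ring
    simp only [e]
    rw [sum_add_distrib, sum_add_distrib, ← mul_sum, ← mul_sum]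
    have hn : 0 < 3 ^ k := by positivity
    rw [sum_affine (3 ^ k) 4 0 hn (Nat.Coprime.pow_left k (by norm_num)) (M k) (M_mod k),
      sum_affine (3 ^ k) 1 0 hn (Nat.coprime_one_right _) (M k) (M_mod k),
      sum_affine (3 ^ k) 2 1 hn (Nat.Coprime.pow_left k (by norm_num)) (M k) (M_mod k), ih]
    rw [pow_succ]; ring

/-- residues for which the multiplier is at least `3^k` are few -/
lemma card_big (k : ℕ) :
    ((range (3 ^ k)).filter (fun r => 3 ^ k ≤ M k r)).card * 3 ^ k ≤ 7 ^ k := by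
  rw [← sum_M k, ← smul_eq_mul, ← sum_const]
  calc ∑ _x ∈ (range (3 ^ k)).filter (fun r => 3 ^ k ≤ M k r), 3 ^ k
      ≤ ∑ x ∈ (range (3 ^ k)).filter (fun r => 3 ^ k ≤ M k r), M k x :=
        sum_le_sum (fun x hx => (mem_filter.1 hx).2)
    _ ≤ _ := sum_le_sum_of_subset (filter_subset _ _)

lemma card_U (k : ℕ) : ∃ C, ∀ N,
    9 ^ k * ((range N).filter (fun u => u ≤ g^[k] u)).card ≤ 7 ^ k * N + C := by
  set B := ∑ r ∈ range (3 ^ k), g^[k] r with hB
  set big := (range (3 ^ k)).filter (fun r => 3 ^ k ≤ M k r) with hbig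
  refine ⟨3 ^ k * 7 ^ k + 9 ^ k * (3 ^ k * (B + 1)), fun N => ?_⟩
  have hn : 0 < 3 ^ k := by positivity
  have hsub : (range N).filter (fun u => u ≤ g^[k] u) ⊆
      range (3 ^ k * (B + 1)) ∪ (range N).filter (fun u => 3 ^ k ≤ M k (u % 3 ^ k)) := by
    intro u hu
    rw [mem_filter, mem_range] at hu
    rw [mem_union, mem_range, mem_filter, mem_range]
    by_cases hM : 3 ^ k ≤ M k (u % 3 ^ k)
    · right; exact ⟨hu.1, hM⟩
    · left
      push Not at hM
      have hr : u % 3 ^ k < 3 ^ k := Nat.mod_lt _ hn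
      have he : g^[k] u = M k (u % 3 ^ k) * (u / 3 ^ k) + g^[k] (u % 3 ^ k) := by
        conv_lhs => rw [← Nat.div_add_mod u (3 ^ k)]
        rw [iter_add]
      have hgB : g^[k] (u % 3 ^ k) ≤ B :=
        single_le_sum (f := fun r => g^[k] r) (fun _ _ => Nat.zero_le _) (mem_range.2 hr)
      have hu2 := hu.2
      rw [he] at hu2
      have hdm := Nat.div_add_mod u (3 ^ k)
      set w := u / 3 ^ k with hw
      have h5 : (M k (u % 3 ^ k) + 1) * w ≤ 3 ^ k * w := Nat.mul_le_mul_right _ hM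
      rw [add_mul, one_mul] at h5
      have hR := Nat.zero_le (u % 3 ^ k)
      have h6 : w ≤ B := by linarith
      have h7 : 3 ^ k * w ≤ 3 ^ k * B := Nat.mul_le_mul_left _ h6
      calc u = 3 ^ k * w + u % 3 ^ k := hdm.symm
        _ < 3 ^ k * B + 3 ^ k := by omega
        _ = 3 ^ k * (B + 1) := by ring
  have hsecond : ((range N).filter (fun u => 3 ^ k ≤ M k (u % 3 ^ k))).card ≤
      (N / 3 ^ k + 1) * big.card := by
    have : ((range N).filter (fun u => 3 ^ k ≤ M k (u % 3 ^ k))).card ≤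
        ((range (N / 3 ^ k + 1)) ×ˢ big).card := by
      apply card_le_card_of_injOn (fun u => (u / 3 ^ k, u % 3 ^ k))
      · intro u hu
        rw [mem_coe, mem_filter, mem_range] at hu
        simp only [coe_product, Set.mem_prod, mem_coe, mem_range, hbig, mem_filter]
        refine ⟨?_, Nat.mod_lt _ hn, hu.2⟩
        exact Nat.lt_succ_of_le (Nat.div_le_div_right hu.1.le)
      · intro u _ v _ h
        simp only [Prod.mk.injEq] at h
        rw [← Nat.div_add_mod u (3 ^ k), ← Nat.div_add_mod v (3 ^ k), h.1, h.2]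
    rwa [card_product, card_range] at this
  have h1 : ((range N).filter (fun u => u ≤ g^[k] u)).card ≤
      3 ^ k * (B + 1) + (N / 3 ^ k + 1) * big.card := by
    refine (card_le_card hsub).trans ((card_union_le _ _).trans ?_)
    rw [card_range]
    exact Nat.add_le_add_left hsecond _
  have h2 := card_big k
  rw [← hbig] at h2
  have h9 : (9 : ℕ) ^ k = 3 ^ k * 3 ^ k := by rw [← mul_pow]; norm_num
  have h3 : 3 ^ k * (N / 3 ^ k) ≤ N := Nat.mul_div_le _ _
  calc 9 ^ k * ((range N).filter (fun u => u ≤ g^[k] u)).card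
      ≤ 9 ^ k * (3 ^ k * (B + 1) + (N / 3 ^ k + 1) * big.card) := Nat.mul_le_mul_left _ h1
    _ = (3 ^ k * (N / 3 ^ k) + 3 ^ k) * (big.card * 3 ^ k) + 9 ^ k * (3 ^ k * (B + 1)) := by
        rw [h9]; ring
    _ ≤ (N + 3 ^ k) * 7 ^ k + 9 ^ k * (3 ^ k * (B + 1)) := by
        apply Nat.add_le_add_right
        exact Nat.mul_le_mul (Nat.add_le_add_right h3 _) h2
    _ = 7 ^ k * N + (3 ^ k * 7 ^ k + 9 ^ k * (3 ^ k * (B + 1))) := by ring

open Classical in
lemma card_E (k N : ℕ) : ((range N).filter (fun x => 0 < x ∧ ∀ j, x ≤ i^[j] x)).card ≤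
    ((range N).filter (fun u => u ≤ g^[k] u)).card := by
  have hodd : ∀ x, 0 < x → (∀ j, x ≤ i^[j] x) → x = 2 * (x / 2) + 1 := by
    intro x hx h
    by_contra hne
    have h1 := h 1
    have e : x = 2 * (x / 2) := by omega
    rw [Function.iterate_one, e, i_even] at h1
    omega
  apply card_le_card_of_injOn (fun x => x / 2)
  · intro x hx
    rw [mem_coe, mem_filter, mem_range] at hx
    obtain ⟨hxN, hx0, h⟩ := hx
    have e := hodd x hx0 h
    rw [mem_coe, mem_filter, mem_range]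
    show x / 2 < N ∧ x / 2 ≤ g^[k] (x / 2)
    refine ⟨by omega, ?_⟩
    obtain ⟨j, hj⟩ := conj_iter k (x / 2)
    have hh := h j
    rw [e] at hh
    have e2 : (2 * (x / 2) + 1) / 2 = x / 2 := by omega
    rw [hj] at hh
    omega
  · intro x hx y hy hxy
    rw [mem_coe, mem_filter, mem_range] at hx hy
    have ex := hodd x hx.2.1 hx.2.2
    have ey := hodd y hy.2.1 hy.2.2
    simp only at hxy
    omega

open Classical in
/-- Almost all positive integers have an iterate under `i` that is smaller than themselves: for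
every `k` the number of `0 < x < N` without a smaller iterate is at most `(7/9)^k N + O_k(1)`; in
particular this set has natural density zero. -/
theorem result :
    (∀ k : ℕ, ∃ C : ℕ, ∀ N : ℕ,
      9 ^ k * ((range N).filter (fun x => 0 < x ∧ ∀ j, x ≤ i^[j] x)).card ≤ 7 ^ k * N + C) ∧
    Filter.Tendsto (fun N : ℕ =>
      (((range N).filter (fun x => 0 < x ∧ ∀ j, x ≤ i^[j] x)).card : ℝ) / N)
      Filter.atTop (nhds 0) := by
  have hmain : ∀ k : ℕ, ∃ C : ℕ, ∀ N : ℕ,
      9 ^ k * ((range N).filter (fun x => 0 < x ∧ ∀ j, x ≤ i^[j] x)).card ≤ 7 ^ k * N + C := by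
    intro k
    obtain ⟨C, hC⟩ := card_U k
    exact ⟨C, fun N => (Nat.mul_le_mul_left _ (card_E k N)).trans (hC N)⟩
  refine ⟨hmain, ?_⟩
  rw [Metric.tendsto_atTop]
  intro ε hε
  obtain ⟨k, hk⟩ := exists_pow_lt_of_lt_one (half_pos hε) (by norm_num : (7 / 9 : ℝ) < 1)
  obtain ⟨C, hC⟩ := hmain k
  obtain ⟨N0, hN0⟩ := exists_nat_gt (2 * (C : ℝ) / ε)
  refine ⟨N0 + 1, fun N hN => ?_⟩
  have hNpos : (0 : ℝ) < N := by
    have : 0 < N := by omega
    exact_mod_cast this
  have hNN : (N0 : ℝ) < N := by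
    have : N0 < N := by omega
    exact_mod_cast this
  set c : ℝ := (((range N).filter (fun x => 0 < x ∧ ∀ j, x ≤ i^[j] x)).card : ℝ) with hc
  have hc0 : 0 ≤ c := by positivity
  have h1 : (9 : ℝ) ^ k * c ≤ 7 ^ k * N + C := by
    have := hC N
    rw [hc]
    exact_mod_cast this
  have h9 : (0 : ℝ) < 9 ^ k := by positivity
  have h91 : (1 : ℝ) ≤ 9 ^ k := one_le_pow₀ (by norm_num)
  have h2 : c ≤ (7 / 9) ^ k * N + C := by
    rw [div_pow]
    have : c ≤ (7 ^ k * N + C) / 9 ^ k := by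
      rw [le_div_iff₀ h9]; linarith
    refine this.trans ?_
    rw [add_div]
    have h3 : (C : ℝ) / 9 ^ k ≤ C := div_le_self (Nat.cast_nonneg _) h91
    have h4 : (7 : ℝ) ^ k * N / 9 ^ k = 7 ^ k / 9 ^ k * N := by ring
    rw [h4]
    linarith
  have h5 : (C : ℝ) < ε / 2 * N := by
    have : 2 * (C : ℝ) / ε < N := hN0.trans hNN
    rw [div_lt_iff₀ hε] at this
    linarith
  have h6 : (7 / 9 : ℝ) ^ k * N < ε / 2 * N := mul_lt_mul_of_pos_right hk hNpos
  rw [Real.dist_eq, sub_zero, abs_of_nonneg (by positivity), div_lt_iff₀ hNpos]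
  linarith

end Pool.Agent.Results.MP_2e2529_nt.AlmostAllDrop
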